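import Pool.Agent.Helper83.BRWDefs
import Pool.Agent.Helper83.BRWMain

/-- Disproof of Q1: for every `α` in `[0,1)` the limit formula for the Renyi entropy of order `α`
of branching random walk empirical measures fails. -/
theorem Pool.Agent.Results.MP_96db20_pr.RenyiFails.result :
    ∀ α : ℝ, 0 ≤ α → α < 1 → ¬ Pool.Agent.Helper83.BRW.LimitFormula α :=
  Pool.Agent.Helper83.BRWMain.renyi_fails
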